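import Pool.Agent.Run7.h148.AX.Stm1

/-!
Pieces CSX, CVM, ITM, WK1 of project AX (helper942).
-/

set_option autoImplicit false

open MeasureTheory Set Filter Topology
open scoped ENNReal ContDiff FourierTransform

namespace Pool.Agent.Run7.h942.AX

open Pool.Agent.Run7.h148.AX

theorem meas_iw : Measurable iw := by
  unfold iw
  exact ENNReal.measurable_ofReal.comp (measurable_norm.inv)

theorem meas_nw : Measurable nw := by
  unfold nw
  exact ENNReal.measurable_ofReal.comp measurable_norm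

theorem meas_wk (k : ℕ) : Measurable (wk k) := by
  unfold wk
  exact ENNReal.measurable_ofReal.comp ((measurable_const.add measurable_norm).pow_const k)

theorem iw_nw {ξ : E3} (h : ξ ≠ 0) : iw ξ * nw ξ = 1 := by
  unfold iw nw
  have h1 : 0 < ‖ξ‖ := norm_pos_iff.2 h
  rw [← ENNReal.ofReal_mul (by positivity), inv_mul_cancel₀ h1.ne', ENNReal.ofReal_one]

theorem iw_nw_le (ξ : E3) : iw ξ * nw ξ ≤ 1 := by
  by_cases h : ξ = 0
  · subst h
    simp [iw, nw]
  · exact (iw_nw h).le

theorem ae_ne0 : ∀ᵐ ξ : E3, ξ ≠ 0 := by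
  have h : (volume : Measure E3) {0} = 0 := measure_singleton 0
  rw [ae_iff]
  convert h using 2
  ext x
  simp

theorem t_CSX : S_CSX := by
  intro m hm
  have h1 : (∫⁻ ξ, m ξ) = ∫⁻ ξ, ((fun ξ => (iw ξ * m ξ) ^ (1 / 2 : ℝ)) * fun ξ => (nw ξ * m ξ) ^ (1 / 2 : ℝ)) ξ := by
    refine lintegral_congr_ae ?_
    filter_upwards [ae_ne0] with ξ hξ
    simp only [Pi.mul_apply]
    rw [← ENNReal.mul_rpow_of_nonneg _ _ (by norm_num)]
    have h2 : iw ξ * m ξ * (nw ξ * m ξ) = m ξ ^ (2 : ℝ) := by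
      have : iw ξ * m ξ * (nw ξ * m ξ) = (iw ξ * nw ξ) * (m ξ * m ξ) := by ring
      rw [this, iw_nw hξ, one_mul, ENNReal.rpow_two, sq]
    rw [h2, ← ENNReal.rpow_mul]
    norm_num
  have hA : Measurable fun ξ => (iw ξ * m ξ) ^ (1 / 2 : ℝ) := (meas_iw.mul hm).pow_const (1 / 2 : ℝ)
  have hB : Measurable fun ξ => (nw ξ * m ξ) ^ (1 / 2 : ℝ) := (meas_nw.mul hm).pow_const (1 / 2 : ℝ)
  have h2 := ENNReal.lintegral_mul_le_Lp_mul_Lq (volume : Measure E3) Real.HolderConjugate.two_two
    hA.aemeasurable hB.aemeasurable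
  rw [← h1] at h2
  have h3 : ∀ x : ℝ≥0∞, (x ^ (1 / 2 : ℝ)) ^ (2 : ℝ) = x := fun x => by
    rw [← ENNReal.rpow_mul]
    norm_num
  simp only [h3] at h2
  calc (∫⁻ ξ, m ξ) ^ 2 ≤ ((∫⁻ ξ, iw ξ * m ξ) ^ (1 / 2 : ℝ) * (∫⁻ ξ, nw ξ * m ξ) ^ (1 / 2 : ℝ)) ^ 2 := by
        gcongr
    _ = _ := by
        rw [mul_pow, ← ENNReal.rpow_two, ← ENNReal.rpow_two, h3, h3]

theorem cv_meas {f g : E3 → ℝ≥0∞} (hf : Measurable f) (hg : Measurable g) : Measurable (cv f g) := by
  unfold cv
  exact Measurable.lintegral_prod_right' (f := fun p : E3 × E3 => f (p.1 - p.2) * g p.2)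
    ((hf.comp (measurable_fst.sub measurable_snd)).mul (hg.comp measurable_snd))

theorem cv_mass {f g : E3 → ℝ≥0∞} (hf : Measurable f) (hg : Measurable g) :
    (∫⁻ ξ, cv f g ξ) = (∫⁻ ξ, f ξ) * ∫⁻ ξ, g ξ := by
  unfold cv
  rw [lintegral_lintegral_swap]
  · have h1 : ∀ y : E3, ∫⁻ x : E3, f (x - y) * g y = (∫⁻ ξ, f ξ) * g y := by
      intro y
      have hy : Measurable fun x : E3 => f (x - y) := hf.comp (measurable_id.sub_const y)
      rw [lintegral_mul_const _ hy, lintegral_sub_right_eq_self f y]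
    simp only [h1]
    rw [lintegral_const_mul _ hg]
  · exact ((hf.comp (measurable_fst.sub measurable_snd)).mul (hg.comp measurable_snd)).aemeasurable

theorem t_CVM : S_CVM := by
  refine ⟨fun f g hf hg => ⟨cv_meas hf hg, cv_mass hf hg⟩, ?_, ?_⟩
  · intro f g hf hg
    funext ξ
    unfold cv
    rw [← lintegral_sub_left_eq_self _ ξ]
    refine lintegral_congr fun η => ?_
    rw [sub_sub_cancel, mul_comm]
  · intro a b ha hb
    unfold cv
    have h1 : Measurable fun q : (ℝ × E3) × E3 => a q.1.1 (q.1.2 - q.2) * b q.1.1 q.2 := by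
      refine Measurable.mul ?_ ?_
      · exact ha.comp ((measurable_fst.comp measurable_fst).prodMk
          ((measurable_snd.comp measurable_fst).sub measurable_snd))
      · exact hb.comp ((measurable_fst.comp measurable_fst).prodMk measurable_snd)
    exact Measurable.lintegral_prod_right' h1

theorem dh_meas (κ : ℝ) (F : ℝ → E3 → ℝ≥0∞) (hF : Measurable (Function.uncurry F)) :
    Measurable (Function.uncurry (dh κ F)) := by
  have h0 : Function.uncurry (dh κ F) = fun p : ℝ × E3 => ∫⁻ s : ℝ,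
      (if 0 < s ∧ s ≤ p.1 then ENNReal.ofReal (ht κ p.2 (p.1 - s)) * F s p.2 else 0) := by
    funext p
    obtain ⟨t, ξ⟩ := p
    simp only [Function.uncurry, dh]
    rw [← lintegral_indicator measurableSet_Ioc]
    refine lintegral_congr fun s => ?_
    by_cases hs : s ∈ Ioc 0 t
    · rw [indicator_of_mem hs, if_pos ⟨hs.1, hs.2⟩]
    · rw [indicator_of_notMem hs, if_neg fun h => hs ⟨h.1, h.2⟩]
  rw [h0]
  have h1 : Measurable fun q : (ℝ × E3) × ℝ =>
      (if 0 < q.2 ∧ q.2 ≤ q.1.1 then ENNReal.ofReal (ht κ q.1.2 (q.1.1 - q.2)) * F q.2 q.1.2 else 0) := by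
    refine Measurable.ite ?_ ?_ measurable_const
    · exact (measurableSet_lt measurable_const measurable_snd).inter
        (measurableSet_le measurable_snd (measurable_fst.comp measurable_fst))
    · refine Measurable.mul ?_ ?_
      · unfold ht
        refine ENNReal.measurable_ofReal.comp (Real.measurable_exp.comp ?_)
        fun_prop
      · exact hF.comp (measurable_snd.prodMk (measurable_snd.comp measurable_fst))
  exact Measurable.lintegral_prod_right' h1

theorem cv_mono {f f' g g' : E3 → ℝ≥0∞} (hf : ∀ x, f x ≤ f' x) (hg : ∀ x, g x ≤ g' x) (ξ : E3) :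
    cv f g ξ ≤ cv f' g' ξ := by
  unfold cv
  exact lintegral_mono fun η => mul_le_mul' (hf _) (hg _)

theorem src_mono {f h m m' : ℝ → E3 → ℝ≥0∞} (hm : ∀ t ξ, m t ξ ≤ m' t ξ) (s : ℝ) (ξ : E3) :
    src f h m s ξ ≤ src f h m' s ξ := by
  unfold src
  have h1 := cv_mono (f := h s) (fun x => le_refl (h s x)) (hm s) ξ
  have h2 := cv_mono (g := h s) (hm s) (fun x => le_refl (h s x)) ξ
  have h3 := cv_mono (hm s) (hm s) ξ
  gcongr

theorem src_meas {f h m : ℝ → E3 → ℝ≥0∞} (hf : Measurable (Function.uncurry f))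
    (hh : Measurable (Function.uncurry h)) (hm : Measurable (Function.uncurry m)) :
    Measurable (Function.uncurry (src f h m)) := by
  have hC := t_CVM.2.2
  have : Function.uncurry (src f h m) = fun p : ℝ × E3 => f p.1 p.2 + 40 * nw p.2 *
      (cv (h p.1) (m p.1) p.2 + cv (m p.1) (h p.1) p.2 + cv (m p.1) (m p.1) p.2) := by
    funext p
    rfl
  rw [this]
  refine Measurable.add hf ?_
  refine Measurable.mul (measurable_const.mul (meas_nw.comp measurable_snd)) ?_
  exact ((hC h m hh hm).add (hC m h hm hh)).add (hC m m hm hm)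

theorem t_ITM : S_CVM → S_ITM := by
  intro _
  refine ⟨dh_meas, fun κ f h hf hh n => ⟨?_, ?_⟩⟩
  · induction n with
    | zero => exact measurable_const
    | succ n ih => exact dh_meas κ _ (src_meas hf hh ih)
  · induction n with
    | zero => intro t ξ; exact zero_le
    | succ n ih =>
      intro t ξ
      show dh κ (src f h (itm κ f h n)) t ξ ≤ dh κ (src f h (itm κ f h (n + 1))) t ξ
      unfold dh
      exact lintegral_mono fun s => mul_le_mul' le_rfl (src_mono ih s ξ)

theorem wk_le (k : ℕ) (ξ η : E3) : wk k ξ ≤ 2 ^ k * (wk k (ξ - η) + wk k η) := by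
  unfold wk
  rw [← ENNReal.ofReal_add (by positivity) (by positivity)]
  have h2 : (2 : ℝ≥0∞) ^ k = ENNReal.ofReal (2 ^ k) := by
    rw [ENNReal.ofReal_pow (by norm_num)]
    norm_num
  rw [h2, ← ENNReal.ofReal_mul (by positivity)]
  refine ENNReal.ofReal_le_ofReal ?_
  have h3 : ‖ξ‖ ≤ ‖ξ - η‖ + ‖η‖ := by
    have := norm_add_le (ξ - η) η
    rwa [sub_add_cancel] at this
  have ha : 0 ≤ ‖ξ - η‖ := norm_nonneg _
  have hb : 0 ≤ ‖η‖ := norm_nonneg _
  rcases le_total ‖ξ - η‖ ‖η‖ with h | h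
  · calc (1 + ‖ξ‖) ^ k ≤ (2 * (1 + ‖η‖)) ^ k := by
          gcongr
          linarith
      _ = 2 ^ k * (1 + ‖η‖) ^ k := mul_pow _ _ _
      _ ≤ _ := by
          gcongr
          have : 0 ≤ (1 + ‖ξ - η‖) ^ k := by positivity
          linarith
  · calc (1 + ‖ξ‖) ^ k ≤ (2 * (1 + ‖ξ - η‖)) ^ k := by
          gcongr
          linarith
      _ = 2 ^ k * (1 + ‖ξ - η‖) ^ k := mul_pow _ _ _
      _ ≤ _ := by
          gcongr
          have : 0 ≤ (1 + ‖η‖) ^ k := by positivity
          linarith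

theorem nw_le (ξ η : E3) : nw ξ ≤ nw (ξ - η) + nw η := by
  unfold nw
  rw [← ENNReal.ofReal_add (by positivity) (by positivity)]
  refine ENNReal.ofReal_le_ofReal ?_
  have := norm_add_le (ξ - η) η
  rwa [sub_add_cancel] at this

/-- pointwise product rule for weights -/
theorem wt_cv (w : E3 → ℝ≥0∞) (C : ℝ≥0∞) (hw : Measurable w) (h : ∀ ξ η, w ξ ≤ C * (w (ξ - η) + w η))
    {a b : E3 → ℝ≥0∞} (ha : Measurable a) (hb : Measurable b) (ξ : E3) :
    w ξ * cv a b ξ ≤ C * (cv (fun x => w x * a x) b ξ + cv a (fun x => w x * b x) ξ) := by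
  unfold cv
  have m1 : Measurable fun η : E3 => a (ξ - η) * b η :=
    (ha.comp (measurable_const.sub measurable_id)).mul hb
  have m2 : Measurable fun η : E3 => w (ξ - η) * a (ξ - η) * b η :=
    ((hw.comp (measurable_const.sub measurable_id)).mul (ha.comp (measurable_const.sub measurable_id))).mul hb
  have m3 : Measurable fun η : E3 => a (ξ - η) * (w η * b η) :=
    (ha.comp (measurable_const.sub measurable_id)).mul (hw.mul hb)
  have m4 : Measurable fun η : E3 => w (ξ - η) * a (ξ - η) * b η + a (ξ - η) * (w η * b η) := m2.add m3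
  show w ξ * (∫⁻ η, a (ξ - η) * b η) ≤ C * ((∫⁻ η, w (ξ - η) * a (ξ - η) * b η) + ∫⁻ η, a (ξ - η) * (w η * b η))
  rw [← lintegral_const_mul _ m1, ← lintegral_add_left m2, ← lintegral_const_mul _ m4]
  refine lintegral_mono fun η => ?_
  calc w ξ * (a (ξ - η) * b η) ≤ (C * (w (ξ - η) + w η)) * (a (ξ - η) * b η) := mul_le_mul' (h ξ η) le_rfl
    _ = C * (w (ξ - η) * a (ξ - η) * b η + a (ξ - η) * (w η * b η)) := by ring

theorem t_WK1 : S_CVM → S_WK1 := by
  intro _ a b ha hb
  refine ⟨fun k => ?_, fun k M M' hM hM' ξ => ?_, ?_⟩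
  · have h1 := wt_cv (wk k) (2 ^ k) (meas_wk k) (wk_le k) ha hb
    have wa : Measurable fun x => wk k x * a x := (meas_wk k).mul ha
    have wb : Measurable fun x => wk k x * b x := (meas_wk k).mul hb
    have c1 := cv_meas wa hb
    have c2 := cv_meas ha wb
    have c3 : Measurable fun ξ => cv (fun x => wk k x * a x) b ξ + cv a (fun x => wk k x * b x) ξ := c1.add c2
    calc (∫⁻ ξ, wk k ξ * cv a b ξ) ≤ ∫⁻ ξ, 2 ^ k * (cv (fun x => wk k x * a x) b ξ + cv a (fun x => wk k x * b x) ξ) :=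
          lintegral_mono h1
      _ = 2 ^ k * ((∫⁻ ξ, cv (fun x => wk k x * a x) b ξ) + ∫⁻ ξ, cv a (fun x => wk k x * b x) ξ) := by
          rw [lintegral_const_mul _ c3, lintegral_add_left c1]
      _ = _ := by
          rw [cv_mass wa hb, cv_mass ha wb]
  · refine (wt_cv (wk k) (2 ^ k) (meas_wk k) (wk_le k) ha hb ξ).trans ?_
    refine mul_le_mul' le_rfl (add_le_add ?_ ?_)
    · unfold cv
      rw [← lintegral_const_mul _ hb]
      exact lintegral_mono fun η => mul_le_mul' (hM _) le_rfl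
    · unfold cv
      have hy : Measurable fun η : E3 => a (ξ - η) := ha.comp (measurable_const.sub measurable_id)
      calc (∫⁻ η, a (ξ - η) * (wk k η * b η)) ≤ ∫⁻ η, a (ξ - η) * M' :=
            lintegral_mono fun η => mul_le_mul' le_rfl (hM' _)
        _ = _ := by
            rw [lintegral_mul_const _ hy, lintegral_sub_left_eq_self]
  · have h1 := wt_cv nw 1 meas_nw (fun ξ η => by rw [one_mul]; exact nw_le ξ η) ha hb
    simp only [one_mul] at h1
    have wa : Measurable fun x => nw x * a x := meas_nw.mul ha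
    have wb : Measurable fun x => nw x * b x := meas_nw.mul hb
    calc (∫⁻ ξ, nw ξ * cv a b ξ) ≤ ∫⁻ ξ, (cv (fun x => nw x * a x) b ξ + cv a (fun x => nw x * b x) ξ) :=
          lintegral_mono h1
      _ = _ := by
          rw [lintegral_add_left (cv_meas wa hb), cv_mass wa hb, cv_mass ha wb]

end Pool.Agent.Run7.h942.AX
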