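import Pool.Agent.Run7.h942.AX.CVM

/-!
Piece CR2 of project AX (helper942): the quadratic step.
-/

set_option autoImplicit false

open MeasureTheory Set Filter Topology
open scoped ENNReal ContDiff FourierTransform

namespace Pool.Agent.Run7.h942.AX

open Pool.Agent.Run7.h148.AX

theorem amgm {u x y : ℝ≥0∞} (h : u ^ 2 ≤ x * y) : 2 * u ≤ x + y := by
  by_cases hx : x = ⊤
  · rw [hx, top_add]; exact le_top
  by_cases hy : y = ⊤
  · rw [hy, add_top]; exact le_top
  have hxy : x * y ≠ ⊤ := ENNReal.mul_ne_top hx hy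
  have hu : u ≠ ⊤ := by
    rintro rfl
    have : (⊤ : ℝ≥0∞) ^ 2 = ⊤ := by norm_num
    rw [this] at h
    exact hxy (top_le_iff.1 h)
  lift u to NNReal using hu
  lift x to NNReal using hx
  lift y to NNReal using hy
  norm_cast at h ⊢
  have h' : (u : ℝ) ^ 2 ≤ x * y := by exact_mod_cast h
  have : (2 : ℝ) * u ≤ x + y := by
    have h1 : (2 * (u : ℝ)) ^ 2 ≤ (x + y) ^ 2 := by nlinarith [sq_nonneg ((x : ℝ) - y)]
    exact (pow_le_pow_iff_left₀ (by positivity) (by positivity) two_ne_zero).1 h1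
  exact_mod_cast this

theorem th_meas {μ : ℝ} {H : ℝ → ℝ} (hH : Continuous H) : Measurable (th μ H) := by
  unfold th
  refine ENNReal.measurable_ofReal.comp (Real.measurable_exp.comp ?_)
  have hc : Continuous fun t : ℝ => ∫ s in (0 : ℝ)..t, H s ^ 2 :=
    intervalIntegral.continuous_primitive (fun a b => (hH.pow 2).intervalIntegrable a b) 0
  exact (measurable_const.mul hc.measurable).neg

theorem lin_meas {w : E3 → ℝ≥0∞} (hw : Measurable w) {m : ℝ → E3 → ℝ≥0∞} (hm : Measurable (Function.uncurry m)) :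
    Measurable fun t : ℝ => ∫⁻ ξ, w ξ * m t ξ := by
  have h1 : Measurable fun p : ℝ × E3 => w p.2 * m p.1 p.2 := (hw.comp measurable_snd).mul hm
  exact Measurable.lintegral_prod_right' h1

theorem iw_src (f h m : ℝ → E3 → ℝ≥0∞) (hf : Measurable (Function.uncurry f))
    (hh : Measurable (Function.uncurry h)) (hm : Measurable (Function.uncurry m)) (s : ℝ) :
    (∫⁻ ξ, iw ξ * src f h m s ξ) ≤ (∫⁻ ξ, iw ξ * f s ξ) +
      (80 * ((∫⁻ ξ, h s ξ) * ∫⁻ ξ, m s ξ) + 40 * (∫⁻ ξ, m s ξ) ^ 2) := by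
  have hfs : Measurable (f s) := hf.comp measurable_prodMk_left
  have hhs : Measurable (h s) := hh.comp measurable_prodMk_left
  have hms : Measurable (m s) := hm.comp measurable_prodMk_left
  have c1 := cv_meas hhs hms
  have c2 := cv_meas hms hhs
  have c3 := cv_meas hms hms
  have m1 : Measurable fun ξ => iw ξ * f s ξ := meas_iw.mul hfs
  have m2 : Measurable fun ξ => cv (h s) (m s) ξ + cv (m s) (h s) ξ + cv (m s) (m s) ξ := (c1.add c2).add c3
  have m3 : Measurable fun ξ => cv (h s) (m s) ξ + cv (m s) (h s) ξ := c1.add c2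
  calc (∫⁻ ξ, iw ξ * src f h m s ξ)
      ≤ ∫⁻ ξ, (iw ξ * f s ξ + 40 * (cv (h s) (m s) ξ + cv (m s) (h s) ξ + cv (m s) (m s) ξ)) := by
        refine lintegral_mono fun ξ => ?_
        unfold src
        rw [mul_add]
        refine add_le_add le_rfl ?_
        calc iw ξ * (40 * nw ξ * (cv (h s) (m s) ξ + cv (m s) (h s) ξ + cv (m s) (m s) ξ))
            = (iw ξ * nw ξ) * (40 * (cv (h s) (m s) ξ + cv (m s) (h s) ξ + cv (m s) (m s) ξ)) := by ring
          _ ≤ 1 * (40 * (cv (h s) (m s) ξ + cv (m s) (h s) ξ + cv (m s) (m s) ξ)) :=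
              mul_le_mul' (iw_nw_le ξ) le_rfl
          _ = _ := one_mul _
    _ = _ := by
        rw [lintegral_add_left m1, lintegral_const_mul _ m2, lintegral_add_left m3, lintegral_add_left c1,
          cv_mass hhs hms, cv_mass hms hhs, cv_mass hms hms]
        ring

theorem t_CR2 : S_CSX → S_CVM → S_CR2 := by
  intro _ _ κ K T η S H f h m hκ hK hT hη hS hH hH0 hHK hf hh hm hhH hfη h1 h2 h3
  set μ : ℝ := 25600 / κ with hμ
  have hμ0 : 0 < μ := by positivity
  set X : ℝ → ℝ≥0∞ := fun t => ∫⁻ ξ, iw ξ * m t ξ with hX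
  set Y : ℝ → ℝ≥0∞ := fun t => ∫⁻ ξ, nw ξ * m t ξ with hY
  have mX : Measurable X := lin_meas meas_iw hm
  have mY : Measurable Y := lin_meas meas_nw hm
  have mF : Measurable fun t : ℝ => ∫⁻ ξ, iw ξ * f t ξ := lin_meas meas_iw hf
  have mth : Measurable (th μ H) := th_meas hH
  have mH : Measurable fun t : ℝ => ENNReal.ofReal (μ * H t ^ 2) :=
    ENNReal.measurable_ofReal.comp (measurable_const.mul (hH.measurable.pow_const 2))
  have hth1 : ∀ t ∈ Ioc 0 T, th μ H t ≤ 1 := by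
    intro t ht
    unfold th
    rw [ENNReal.ofReal_le_one, Real.exp_le_one_iff]
    have : 0 ≤ ∫ s in (0 : ℝ)..t, H s ^ 2 := intervalIntegral.integral_nonneg ht.1.le fun s _ => sq_nonneg _
    have := mul_nonneg hμ0.le this
    linarith
  have hth2 : ∀ t ∈ Ioc 0 T, 1 ≤ ENNReal.ofReal (Real.exp (μ * K)) * th μ H t := by
    intro t ht
    unfold th
    rw [← ENNReal.ofReal_mul (Real.exp_pos _).le, ← Real.exp_add, ENNReal.one_le_ofReal, Real.one_le_exp_iff]
    have h5 : (∫ s in (0 : ℝ)..t, H s ^ 2) ≤ ∫ s in (0 : ℝ)..T, H s ^ 2 := by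
      refine intervalIntegral.integral_mono_interval le_rfl ht.1.le ht.2 ?_
        ((hH.pow 2).intervalIntegrable 0 T)
      exact Filter.Eventually.of_forall fun s => sq_nonneg _
    have h6 : μ * (∫ s in (0 : ℝ)..t, H s ^ 2) ≤ μ * K := mul_le_mul_of_nonneg_left (h5.trans hHK) hμ0.le
    linarith
  set C : ℝ≥0∞ := 40 * ENNReal.ofReal (Real.exp (μ * K)) * ENNReal.ofReal S with hC
  have key : ∀ t ∈ Ioc 0 T, th μ H t * (∫⁻ ξ, iw ξ * src f h m t ξ) ≤
      (∫⁻ ξ, iw ξ * f t ξ) + (ENNReal.ofReal (1 / 4) * (ENNReal.ofReal (μ * H t ^ 2) * (th μ H t * X t)) +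
        (ENNReal.ofReal (κ / 4) * (th μ H t * Y t) + C * (th μ H t * Y t))) := by
    intro t ht
    have ht' : t ∈ Icc 0 T := Ioc_subset_Icc_self ht
    set a : ℝ≥0∞ := ∫⁻ ξ, m t ξ with ha
    have haXY : a ^ 2 ≤ X t * Y t := t_CSX (m t) (hm.comp measurable_prodMk_left)
    have hsrc := iw_src f h m hf hh hm t
    have q1 : 80 * ((∫⁻ ξ, h t ξ) * a) ≤ ENNReal.ofReal (μ / 4 * H t ^ 2) * X t + ENNReal.ofReal (κ / 4) * Y t := by
      have e1 : 80 * ((∫⁻ ξ, h t ξ) * a) ≤ 2 * (40 * ENNReal.ofReal (H t) * a) := by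
        calc 80 * ((∫⁻ ξ, h t ξ) * a) ≤ 80 * (ENNReal.ofReal (H t) * a) := by
              gcongr
              exact hhH t ht'
          _ = 2 * (40 * ENNReal.ofReal (H t) * a) := by ring
      refine e1.trans (amgm ?_)
      calc (40 * ENNReal.ofReal (H t) * a) ^ 2 = 1600 * ENNReal.ofReal (H t) ^ 2 * a ^ 2 := by ring
        _ ≤ 1600 * ENNReal.ofReal (H t) ^ 2 * (X t * Y t) := by gcongr
        _ = ENNReal.ofReal (μ / 4 * H t ^ 2) * X t * (ENNReal.ofReal (κ / 4) * Y t) := by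
            have e2 : ENNReal.ofReal (μ / 4 * H t ^ 2) * ENNReal.ofReal (κ / 4) =
                1600 * ENNReal.ofReal (H t) ^ 2 := by
              rw [← ENNReal.ofReal_mul (by positivity), ← ENNReal.ofReal_pow (hH0 t)]
              have e3 : (1600 : ℝ≥0∞) = ENNReal.ofReal 1600 := by norm_num
              rw [e3, ← ENNReal.ofReal_mul (by norm_num)]
              congr 1
              rw [hμ]
              field_simp
              ring
            rw [← e2]
            ring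
    have q2 : 40 * a ^ 2 * th μ H t ≤ C * (th μ H t * Y t) := by
      calc 40 * a ^ 2 * th μ H t ≤ 40 * (X t * Y t) * th μ H t := by gcongr
        _ = 1 * (40 * (X t * Y t) * th μ H t) := (one_mul _).symm
        _ ≤ (ENNReal.ofReal (Real.exp (μ * K)) * th μ H t) * (40 * (X t * Y t) * th μ H t) :=
            mul_le_mul' (hth2 t ht) le_rfl
        _ = 40 * ENNReal.ofReal (Real.exp (μ * K)) * (th μ H t * X t) * (th μ H t * Y t) := by ring
        _ ≤ 40 * ENNReal.ofReal (Real.exp (μ * K)) * ENNReal.ofReal S * (th μ H t * Y t) := by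
            gcongr
            exact h1 t ht'
    calc th μ H t * (∫⁻ ξ, iw ξ * src f h m t ξ)
        ≤ th μ H t * ((∫⁻ ξ, iw ξ * f t ξ) + (80 * ((∫⁻ ξ, h t ξ) * a) + 40 * a ^ 2)) :=
          mul_le_mul' le_rfl hsrc
      _ = th μ H t * (∫⁻ ξ, iw ξ * f t ξ) + (th μ H t * (80 * ((∫⁻ ξ, h t ξ) * a)) + 40 * a ^ 2 * th μ H t) := by ring
      _ ≤ 1 * (∫⁻ ξ, iw ξ * f t ξ) + (th μ H t * (ENNReal.ofReal (μ / 4 * H t ^ 2) * X t +
            ENNReal.ofReal (κ / 4) * Y t) + C * (th μ H t * Y t)) := by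
          refine add_le_add (mul_le_mul' (hth1 t ht) le_rfl) (add_le_add (mul_le_mul' le_rfl q1) q2)
      _ = _ := by
          have e4 : ENNReal.ofReal (μ / 4 * H t ^ 2) = ENNReal.ofReal (1 / 4) * ENNReal.ofReal (μ * H t ^ 2) := by
            rw [← ENNReal.ofReal_mul (by norm_num)]
            congr 1
            ring
          rw [e4]
          ring
  have mtX : Measurable fun t => ENNReal.ofReal (μ * H t ^ 2) * (th μ H t * X t) := mH.mul (mth.mul mX)
  have mtY : Measurable fun t => th μ H t * Y t := mth.mul mY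
  have m5 : Measurable fun t => ENNReal.ofReal (1 / 4) * (ENNReal.ofReal (μ * H t ^ 2) * (th μ H t * X t)) :=
    measurable_const.mul mtX
  have m6 : Measurable fun t => ENNReal.ofReal (κ / 4) * (th μ H t * Y t) := measurable_const.mul mtY
  have hYS : ∫⁻ t in Ioc 0 T, th μ H t * Y t ≤ ENNReal.ofReal (S / κ) := by
    have hk0 : ENNReal.ofReal κ ≠ 0 := by simpa using hκ
    have e5 : ENNReal.ofReal (S / κ) = ENNReal.ofReal S / ENNReal.ofReal κ := ENNReal.ofReal_div_of_pos hκ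
    rw [e5, ENNReal.le_div_iff_mul_le (Or.inl hk0) (Or.inl ENNReal.ofReal_ne_top), mul_comm]
    exact h2
  calc (∫⁻ s in Ioc 0 T, th μ H s * ∫⁻ ξ, iw ξ * src f h m s ξ)
      ≤ ∫⁻ t in Ioc 0 T, ((∫⁻ ξ, iw ξ * f t ξ) + (ENNReal.ofReal (1 / 4) * (ENNReal.ofReal (μ * H t ^ 2) * (th μ H t * X t)) +
        (ENNReal.ofReal (κ / 4) * (th μ H t * Y t) + C * (th μ H t * Y t)))) :=
        setLIntegral_mono' measurableSet_Ioc key
    _ = (∫⁻ t in Ioc 0 T, ∫⁻ ξ, iw ξ * f t ξ) +
        (ENNReal.ofReal (1 / 4) * (∫⁻ t in Ioc 0 T, ENNReal.ofReal (μ * H t ^ 2) * (th μ H t * X t)) +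
        (ENNReal.ofReal (κ / 4) * (∫⁻ t in Ioc 0 T, th μ H t * Y t) + C * (∫⁻ t in Ioc 0 T, th μ H t * Y t))) := by
        rw [lintegral_add_left mF, lintegral_add_left m5, lintegral_add_left m6, lintegral_const_mul _ mtX,
          lintegral_const_mul _ mtY, lintegral_const_mul _ mtY]
    _ ≤ ENNReal.ofReal η + (ENNReal.ofReal (1 / 4) * ENNReal.ofReal S +
        (ENNReal.ofReal (κ / 4) * ENNReal.ofReal (S / κ) + C * ENNReal.ofReal (S / κ))) := by
        refine add_le_add hfη (add_le_add (mul_le_mul' le_rfl h3)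
          (add_le_add (mul_le_mul' le_rfl hYS) (mul_le_mul' le_rfl hYS)))
    _ = ENNReal.ofReal (η + S / 2 + 40 / κ * Real.exp (μ * K) * S ^ 2) := by
        have e6 : (40 : ℝ≥0∞) = ENNReal.ofReal 40 := by norm_num
        rw [hC, e6, ← ENNReal.ofReal_mul (by norm_num), ← ENNReal.ofReal_mul (by positivity),
          ← ENNReal.ofReal_mul (by positivity), ← ENNReal.ofReal_mul (by positivity),
          ← ENNReal.ofReal_mul (by positivity), ← ENNReal.ofReal_add (by positivity) (by positivity),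
          ← ENNReal.ofReal_add (by positivity) (by positivity), ← ENNReal.ofReal_add (by positivity) (by positivity)]
        congr 1
        field_simp
        ring

end Pool.Agent.Run7.h942.AX
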